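import Mathlib

/-!
# The endomorphism `x ↦ ∑ B(aᵢ, x) bᵢ`
-/

universe v w

open Finset

namespace Pool.Agent.Helper41.SS

variable {K : Type v} [Field K] {M : Type w} [AddCommGroup M] [Module K M]
  (B : M →ₗ[K] M →ₗ[K] K) {m : ℕ} (a b : Fin m → M)

/-- the endomorphism `x ↦ ∑ B(aᵢ, x) bᵢ` -/
noncomputable def rk : Module.End K M := ∑ i, (B (a i)).smulRight (b i)

lemma rk_apply (x : M) : rk B a b x = ∑ i, B (a i) x • b i := by simp [rk]

variable {B a b}

/-- the trace of the product with another endomorphism -/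
lemma trace_rk_mul [Module.Finite K M] (f : Module.End K M) :
    LinearMap.trace K M (rk B a b * f) = ∑ i, B (a i) (f (b i)) := by
  have h : rk B a b * f = ∑ i, ((B (a i)) ∘ₗ f).smulRight (b i) := by
    ext x
    simp [rk]
  rw [h, map_sum]
  refine sum_congr rfl fun i _ => ?_
  rw [LinearMap.trace_smulRight]
  rfl

/-- every linear form is `B( · , x)` for some `x` -/
lemma exists_rep [Module.Finite K M] {e : K} (hsymm : ∀ x y, B x y = e * B y x)
    (hnd : ∀ x, (∀ y, B x y = 0) → x = 0) (f : Module.Dual K M) : ∃ x, ∀ y, B y x = f y := by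
  have hinj : Function.Injective B.flip := by
    rw [injective_iff_map_eq_zero]
    intro x hx
    refine hnd x fun y => ?_
    have h1 := congrArg (fun g : M →ₗ[K] K => g y) hx
    simp only [LinearMap.flip_apply, LinearMap.zero_apply] at h1
    rw [hsymm, h1, mul_zero]
  have hsurj : Function.Surjective B.flip :=
    (LinearMap.injective_iff_surjective_of_finrank_eq_finrank
      (Subspace.dual_finrank_eq).symm).mp hinj
  obtain ⟨x, hx⟩ := hsurj f
  refine ⟨x, fun y => ?_⟩
  rw [← hx, LinearMap.flip_apply]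

/-- if the endomorphism is zero, the tensor `∑ aᵢ ⊗ bᵢ` is zero -/
lemma sum_eq_zero_of_rk [Module.Finite K M] {e : K} (hsymm : ∀ x y, B x y = e * B y x)
    (hnd : ∀ x, (∀ y, B x y = 0) → x = 0) (h : rk B a b = 0) {N : Type*} [AddCommGroup N]
    [Module K N] (β : M →ₗ[K] M →ₗ[K] N) : ∑ i, β (a i) (b i) = 0 := by
  classical
  let c := Module.finBasis K M
  have h1 : ∀ j, ∑ i, c.repr (a i) j • b i = 0 := by
    intro j
    obtain ⟨x, hx⟩ := exists_rep hsymm hnd (c.coord j)
    have h2 := congrArg (fun g : Module.End K M => g x) h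
    simp only [LinearMap.zero_apply] at h2
    rw [rk_apply] at h2
    simp only [hx, Module.Basis.coord_apply] at h2
    exact h2
  have h2 : ∀ i, β (a i) (b i) = ∑ j, β (c j) (c.repr (a i) j • b i) := by
    intro i
    conv_lhs => rw [← c.sum_repr (a i)]
    rw [map_sum, LinearMap.sum_apply]
    refine sum_congr rfl fun j _ => ?_
    rw [map_smul, map_smul, LinearMap.smul_apply]
  rw [sum_congr rfl fun i _ => h2 i, sum_comm]
  refine sum_eq_zero fun j _ => ?_
  rw [← map_sum, h1, map_zero]

end Pool.Agent.Helper41.SS
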