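import Mathlib
import Pool.Agent.Helper11.GP.Final
import Pool.Agent.Helper11.Zt.SPieces
import Pool.Agent.Helper29.SS.Lin
import Pool.Agent.Helper41.SS.Rank

/-!
# Pieces of the middle cohomology on which Frobenius has simple eigenvalues are positive
-/

universe u v w u' w'

open CategoryTheory Finset Polynomial

namespace Pool.Agent.Helper11.BD

open Pool.Agent.Helper10 hiding IsAlgAut parityPart
open SmProjVar Pool.Agent.Helper10.GIT
open Pool.Agent.Helper11.Obs (extProd prodVar parityPart NumTrivialOrthogonal)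
open Pool.Agent.Helper11.Zt (IsCharpolyOn dualPoly isSymmetryOver_frob IsSymmetryOver
  charpoly_of_isCharpolyOn' mem_of_isCharpolyOn')
open Pool.Agent.Helper10.HD (ratModule)
open Pool.Agent.Helper29.SS (eq_zero_of_trace)
open Pool.Agent.Helper41.SS (rk rk_apply trace_rk_mul sum_eq_zero_of_rk)

attribute [local instance] ratModule

section simple

variable {k : Type u} [Field k] [Finite k] {K : Type v} [Field K] [CharZero K]
  (W : WeilCohomology.{u, v, w} k K) {X : SmProjVar k}

/-- the iterates of Frobenius -/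
noncomputable def frobIter (X : SmProjVar k) : ℕ → (X.toOver ⟶ X.toOver)
  | 0 => 𝟙 X.toOver
  | n + 1 => frobIter X n ≫ frob X

lemma pull_frobIter (n : ℕ) (x : W.H X) :
    W.pull (frobIter X n) x = ((isSymmetryOver_frob W).lin X ^ n) x := by
  induction n generalizing x with
  | zero => exact W.pull_id X x
  | succ n ih =>
    change W.pull (frobIter X n ≫ frob X) x = _
    rw [W.pull_comp, ih, pow_succ, Module.End.mul_apply]
    rfl

/-- the graph of an iterate of Frobenius -/
lemma exists_graph (n : ℕ) : ∃ γ ∈ cycleGroup W.toCohomologyData (X.prod X), ∀ x y : W.H X,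
    W.trL (X.prod X) (γ * (W.pull (fst X X) x * W.pull (snd X X) y)) =
      W.trL X (x * ((isSymmetryOver_frob W).lin X ^ n) y) := by
  obtain ⟨c, -, hc⟩ := W.cycleClasses.cy_fundamental X
  obtain ⟨γ, hγ, h⟩ := push_mem_cycleGroup W (lift (𝟙 X.toOver) (frobIter X n) :
    X.toOver ⟶ (X.prod X).toOver) (cy_mem_cycleGroup W X 0 c)
  refine ⟨γ, hγ, fun x y => ?_⟩
  rw [h, hc, one_mul, map_mul]
  have h1 : W.pullA (lift (𝟙 X.toOver) (frobIter X n) : X.toOver ⟶ (X.prod X).toOver)
      (W.pull (fst X X) x) = x := by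
    change W.pull _ (W.pull _ x) = x
    rw [← W.pull_comp, lift_fst, W.pull_id]
  have h2 : W.pullA (lift (𝟙 X.toOver) (frobIter X n) : X.toOver ⟶ (X.prod X).toOver)
      (W.pull (snd X X) y) = ((isSymmetryOver_frob W).lin X ^ n) y := by
    change W.pull _ (W.pull _ y) = _
    rw [← W.pull_comp, lift_snd, pull_frobIter]
  rw [h1, h2]

omit [Finite k] in
/-- the pairing with the class `∑ aᵢ × bᵢ` -/
lemma trL_sum_mul {d m : ℕ} {a b : Fin m → W.H X} (hb : ∀ i, b i ∈ W.gr X d) {x : W.H X}
    (hx : x ∈ W.gr X d) (y : W.H X) :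
    W.trL (X.prod X) ((∑ i, W.pull (fst X X) (a i) * W.pull (snd X X) (b i)) *
      (W.pull (fst X X) x * W.pull (snd X X) y)) =
      (-1 : K) ^ (d * d) * ∑ i, W.trL X (a i * x) * W.trL X (b i * y) := by
  rw [sum_mul, map_sum, mul_sum]
  refine sum_congr rfl fun i _ => ?_
  have h1 := (W.graded (X.prod X)).comm d d _ _ (pull_gr W (snd X X) (hb i)) (pull_gr W (fst X X) hx)
  have h2 : W.pull (fst X X) (a i) * W.pull (snd X X) (b i) *
      (W.pull (fst X X) x * W.pull (snd X X) y) = (-1 : K) ^ (d * d) •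
        (W.pull (fst X X) (a i * x) * W.pull (snd X X) (b i * y)) := by
    rw [(W.pull_hom (fst X X)).map_mul, (W.pull_hom (snd X X)).map_mul]
    calc _ = W.pull (fst X X) (a i) * (W.pull (snd X X) (b i) * W.pull (fst X X) x) *
          W.pull (snd X X) y := by simp only [mul_assoc]
      _ = _ := by
        rw [h1]
        simp only [mul_smul_comm, smul_mul_assoc, mul_assoc]
  rw [h2, map_smul, smul_eq_mul]
  have h3 : W.trL (X.prod X) (W.pull (fst X X) (a i * x) * W.pull (snd X X) (b i * y)) =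
      W.trL X (a i * x) * W.trL X (b i * y) := W.tr_prod X X _ _
  rw [h3]

/-- Frobenius multiplies the rational combinations of cycle classes of codimension `p` by `q ^ p` -/
lemma frob_span {Y : SmProjVar k} {p : ℕ} {z : W.H Y}
    (hz : z ∈ Submodule.span ℚ {y | ∃ c : Y.Z p, y = W.cy Y p c}) :
    (isSymmetryOver_frob W).lin Y z = (Nat.card k : K) ^ p • z := by
  induction hz using Submodule.span_induction with
  | mem z hz =>
    obtain ⟨c, rfl⟩ := hz
    exact (isSymmetryOver_frob W).cycle Y p c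
  | zero => rw [map_zero, smul_zero]
  | add x y _ _ hx hy => rw [map_add, hx, hy, smul_add]
  | smul r x _ hx =>
    change (isSymmetryOver_frob W).lin Y ((algebraMap ℚ K r) • x) = _ • (algebraMap ℚ K r) • x
    rw [map_smul, hx, smul_comm]

/-- A rational class `∑ aᵢ × bᵢ` with `aᵢ`, `bᵢ` in a nondegenerate subspace `E` of the middle
cohomology, on which Frobenius has simple eigenvalues of absolute value `q ^ (d / 2)`, is zero if
`∑ ⟨aᵢ, aⱼ⟩ ⟨bᵢ, bⱼ⟩ = 0`. -/
theorem eq_zero_of_simple {E : Submodule K (W.H X)} (hmid : E ≤ W.gr X X.dim)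
    (hnd : ∀ x ∈ E, (∀ y ∈ E, W.trL X (x * y) = 0) → x = 0) {R : ℚ[X]}
    (hR : IsCharpolyOn (W.pull (frob X)) E (R.map (algebraMap ℚ K))) (hsq : Squarefree R)
    (habs : ∀ z : ℂ, aeval z R = 0 → ‖z‖ ^ 2 = (Nat.card k : ℝ) ^ X.dim) {m : ℕ}
    {a b : Fin m → W.H X} (hab : ∀ i, a i ∈ E ∧ b i ∈ E)
    (hz : ∑ i, W.pull (fst X X) (a i) * W.pull (snd X X) (b i) ∈
      cycleSpan W.toCohomologyData (ratField K) (X.prod X))
    (h0 : ∑ i, ∑ j, W.trL X (a i * a j) * W.trL X (b i * b j) = 0) :
    ∑ i, W.pull (fst X X) (a i) * W.pull (snd X X) (b i) = 0 := by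
  have := (W.graded X).finite
  have hg := isSymmetryOver_frob W
  have hS := mem_of_isCharpolyOn' hg hR
  have hdim : (X.prod X).dim = X.dim + X.dim := rfl
  set d := X.dim with hd
  set z := ∑ i, W.pull (fst X X) (a i) * W.pull (snd X X) (b i) with hzdef
  -- the form
  let B : E →ₗ[K] E →ₗ[K] K := LinearMap.mk₂ K (fun x y => W.trL X ((x : W.H X) * y))
    (fun a b c => by rw [Submodule.coe_add, add_mul, map_add])
    (fun a b c => by rw [Submodule.coe_smul, smul_mul_assoc, map_smul])
    (fun a b c => by rw [Submodule.coe_add, mul_add, map_add])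
    (fun a b c => by rw [Submodule.coe_smul, mul_smul_comm, map_smul])
  have hB : ∀ x y : E, B x y = W.trL X ((x : W.H X) * y) := fun x y => rfl
  let e : K := (-1) ^ (d * d)
  have he : e * e = 1 := by
    change (-1 : K) ^ (d * d) * (-1) ^ (d * d) = 1
    rw [← mul_pow]
    norm_num
  have hsymm : ∀ x y : E, B x y = e * B y x := by
    intro x y
    rw [hB, hB, (W.graded X).comm d d _ _ (hmid x.2) (hmid y.2), map_smul, smul_eq_mul]
  have hndB : ∀ x : E, (∀ y, B x y = 0) → x = 0 := fun x hx =>
    Subtype.ext (hnd x x.2 fun y hy => hx ⟨y, hy⟩)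
  -- Frobenius
  let T : Module.End K E := (hg.lin X).restrict hS
  have hTc : ∀ x : E, ((T x : E) : W.H X) = hg.lin X x := fun x => rfl
  have hq : (Nat.card k : K) ≠ 0 := hg.ne_zero
  have hT : ∀ x y : E, B (T x) (T y) = (Nat.card k : K) ^ d * B x y := fun x y => hg.pairing _ _
  have hTinj : Function.Injective T := fun x y hxy =>
    Subtype.ext (hg.lin_injective X (congrArg Subtype.val hxy))
  have hTsurj : Function.Surjective T := LinearMap.injective_iff_surjective.mp hTinj
  -- the endomorphism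
  let a' : Fin m → E := fun i => ⟨a i, (hab i).1⟩
  let b' : Fin m → E := fun i => ⟨b i, (hab i).2⟩
  let u : Module.End K E := rk B a' b'
  have hu : ∀ x y : E, W.trL (X.prod X) (z * (W.pull (fst X X) x * W.pull (snd X X) y)) =
      e * B (u x) y := by
    intro x y
    rw [hzdef, trL_sum_mul W (fun i => hmid (hab i).2) (hmid x.2)]
    congr 1
    change _ = B (rk B a' b' x) y
    rw [rk_apply, map_sum, LinearMap.sum_apply]
    refine sum_congr rfl fun i _ => ?_
    rw [map_smul, LinearMap.smul_apply, smul_eq_mul]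
    rfl
  -- the class is homogeneous
  have hzgr : z ∈ W.gr (X.prod X) (2 * d) := by
    rw [hzdef, two_mul]
    exact Submodule.sum_mem _ fun i _ =>
      mul_gr W (pull_gr W _ (hmid (hab i).1)) (pull_gr W _ (hmid (hab i).2))
  have hΦ : hg.lin (X.prod X) z = (Nat.card k : K) ^ d • z :=
    frob_span W (mem_span_of_gr W (p := d) (by rw [hdim]; omega) hz hzgr)
  have he0 : e ≠ 0 := fun h => by rw [h, zero_mul] at he; exact zero_ne_one he
  have hcomm : u * T = T * u := by
    refine LinearMap.ext fun x => ?_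
    rw [← sub_eq_zero]
    refine hndB _ fun y => ?_
    obtain ⟨y, rfl⟩ := hTsurj y
    have h1 := hg.pairing (X := X.prod X) z (W.pull (fst X X) x * W.pull (snd X X) y)
    have h2 : hg.lin (X.prod X) (W.pull (fst X X) (x : W.H X) * W.pull (snd X X) (y : W.H X)) =
        W.pull (fst X X) ((T x : E) : W.H X) * W.pull (snd X X) ((T y : E) : W.H X) := by
      change W.pull (frob _) _ = _
      rw [(W.pull_hom _).map_mul]
      congr 1
      · exact hg.pull (fst X X) (x : W.H X)
      · exact hg.pull (snd X X) (y : W.H X)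
    rw [h2, hΦ] at h1
    have h3 : (Nat.card k : K) ^ d * (e * B (u (T x)) (T y)) =
        (Nat.card k : K) ^ (d + d) * (e * B (u x) y) := by
      rw [← hu, ← hu]
      have h4 : W.trL (X.prod X) ((Nat.card k : K) ^ d • z *
          (W.pull (fst X X) ((T x : E) : W.H X) * W.pull (snd X X) ((T y : E) : W.H X))) =
          (Nat.card k : K) ^ d * W.trL (X.prod X) (z *
          (W.pull (fst X X) ((T x : E) : W.H X) * W.pull (snd X X) ((T y : E) : W.H X))) := by
        rw [smul_mul_assoc, map_smul, smul_eq_mul]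
      rw [← h4]
      exact h1
    have h5 : B (u (T x)) (T y) = B (T (u x)) (T y) := by
      rw [hT]
      have h6 : (Nat.card k : K) ^ d * e ≠ 0 := mul_ne_zero (pow_ne_zero _ hq) he0
      refine mul_left_cancel₀ h6 ?_
      rw [pow_add] at h3
      linear_combination h3
    rw [Module.End.mul_apply, Module.End.mul_apply, map_sub, LinearMap.sub_apply, h5, sub_self]
  -- the traces
  have htr : ∀ n : ℕ, ∃ t : ℚ, LinearMap.trace K E (u * T ^ n) = (t : K) := by
    intro n
    obtain ⟨γ, hγ, h⟩ := exists_graph W (X := X) n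
    obtain ⟨⟨t, ht⟩, h1⟩ := tr_cycleSpan (F := ratField K) W (X.prod X) (x := γ * z) (y := 1)
      (mul_mem_cycleSpan W _ (cycleGroup_le_cycleSpan W _ _ hγ) hz) (by
        obtain ⟨c, -, hc⟩ := W.cycleClasses.cy_fundamental (X.prod X)
        rw [← hc]
        exact cy_mem_cycleGroup W _ 0 c)
    obtain ⟨r, rfl⟩ := ht
    refine ⟨r, ?_⟩
    have h2 : LinearMap.trace K E (rk B a' b' * T ^ n) = ∑ i, B (a' i) ((T ^ n) (b' i)) :=
      trace_rk_mul _
    have h3 : ∀ (n : ℕ) (y : E), (((T ^ n) y : E) : W.H X) = (hg.lin X ^ n) (y : W.H X) := by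
      intro n
      induction n with
      | zero => intro y; rfl
      | succ n ih =>
        intro y
        rw [pow_succ, pow_succ, Module.End.mul_apply, Module.End.mul_apply, ih, hTc]
    rw [mul_one, hzdef, mul_sum, map_sum] at h1
    change LinearMap.trace K E (rk B a' b' * T ^ n) = _
    rw [h2]
    have h4 : ∑ i, B (a' i) ((T ^ n) (b' i)) = algebraMap ℚ K r := by
      refine Eq.trans (sum_congr rfl fun i _ => ?_) h1
      rw [h, hB, h3]
    rw [h4, eq_ratCast]
  have hQ : (0 : ℚ) < (Nat.card k : ℚ) ^ d := by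
    have : 0 < Nat.card k := Nat.card_pos
    positivity
  have hu0 : u = 0 := by
    refine eq_zero_of_trace B ?_ e hsymm T ((Nat.card k : ℚ) ^ d) hQ (fun x y => ?_) R ?_ hsq
      (fun z hz => ?_) u hcomm htr a' b' (fun x => rk_apply B a' b' x) h0
    · refine ⟨hndB, fun x hx => hndB x fun y => ?_⟩
      rw [hsymm, hx, mul_zero]
    · rw [hT]
      push_cast
      rfl
    · exact (charpoly_of_isCharpolyOn' hg hS hR).symm
    · rw [habs z hz]
      push_cast
      rfl
  -- the class is zero
  have h2 := sum_eq_zero_of_rk (a := a') (b := b') hsymm hndB hu0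
    (LinearMap.mk₂ K (fun x y : E => W.pull (fst X X) (x : W.H X) * W.pull (snd X X) (y : W.H X))
      (fun x y t => by rw [Submodule.coe_add, (W.pull_hom _).map_add, add_mul])
      (fun c x t => by rw [Submodule.coe_smul, (W.pull_hom _).map_smul, smul_mul_assoc])
      (fun t x y => by rw [Submodule.coe_add, (W.pull_hom _).map_add, mul_add])
      (fun c t x => by rw [Submodule.coe_smul, (W.pull_hom _).map_smul, mul_smul_comm]))
  exact h2

end simple

variable {k : Type u} [Field k] {K : Type v} [Field K] [CharZero K]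
  (W : WeilCohomology.{u, v, w} k K) {F : Subfield K}
  {k' : Type u'} [Field k'] (W' : WeilCohomology.{u', v, w'} k' K)

/-- Pieces over `ℚ` of the middle cohomology on which Frobenius at the specialisation has simple
eigenvalues of absolute value `q ^ (d / 2)` are positive. -/
theorem isPositiveAt_of_simple [Finite k'] {P : ℕ} {V : Fin P → SmProjVar k}
    {V' : Fin P → SmProjVar k'} {φ : ∀ c, W.H (V c) → W'.H (V' c)}
    (hφ : AreSpecializations W.toCohomologyData W'.toCohomologyData V V' φ) (c : Fin P)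
    {E : Submodule K (W.H (V c))} (hE : Ro.IsPieceOver W.toCohomologyData (ratField K) (V c) E)
    (hmid : E ≤ W.gr (V c) (V c).dim) {R : ℚ[X]}
    (hR : IsCharpolyOn (W'.pull (frob (V' c))) (E.map (hφ.lin c)) (R.map (algebraMap ℚ K)))
    (hsq : Squarefree R)
    (habs : ∀ z : ℂ, aeval z R = 0 → ‖z‖ ^ 2 = (Nat.card k' : ℝ) ^ (V c).dim) :
    IsPositiveAt W.toCohomologyData W'.toCohomologyData (ratField K) E (φ c) := by
  refine ⟨fun x => x, Zt.isAlgebraicMap_id' W (V c), fun y hy => hy, fun m a b hab hz h0 => ?_⟩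
  have hdim := hφ.dim_eq c
  refine eq_zero_of_simple W' (X := V' c) (E := E.map (hφ.lin c)) ?_ ?_ hR hsq ?_
    (a := fun i => φ c (a i)) (b := fun i => φ c (b i))
    (fun i => ⟨⟨a i, (hab i).1, rfl⟩, ⟨b i, (hab i).2, rfl⟩⟩) hz ?_
  · rintro _ ⟨x, hx, rfl⟩
    rw [hdim]
    exact hφ.map_mem c _ x (hmid hx)
  · rintro _ ⟨x, hx, rfl⟩ h
    obtain ⟨u, hu, hup⟩ := hE.projector
    have h1 : x = 0 := by
      refine (W.trace (V c)).nondegenerate x fun y => ?_
      have h2 := (hup y).2 x hx
      have h3 := h (hφ.lin c (u y)) ⟨u y, (hup y).1, rfl⟩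
      have h4 : W'.trL (V' c) (hφ.lin c x * hφ.lin c (u y)) = W.pairing (V c) x (u y) :=
        hφ.pairing_eq c x (u y)
      rw [h4, h2] at h3
      exact h3
    rw [h1, map_zero]
  · intro z hz
    rw [habs z hz, hdim]
  · rw [← h0]
    refine sum_congr rfl fun i _ => sum_congr rfl fun j _ => ?_
    exact congrArg₂ (· * ·) (hφ.pairing_eq c _ _) (hφ.pairing_eq c _ _)

end Pool.Agent.Helper11.BD
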